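import Pool.Agent.Helper97_TF.Basic

/-! Squad TF, row FRE. -/

set_option autoImplicit false

namespace Pool.Agent.TF.H97

open Pool.Agent.TF

/-- FRE -/
theorem fre (L : Lib) (upp : UppStmt) : FreStmt := by
  intro G _ _ _ n F l e V κ R Ω _ P x y h c hR hM
  have he := hM.base.e0
  -- two members
  set i₀ : Fin R := ⟨0, by omega⟩ with hi₀
  set i₁ : Fin R := ⟨1, by omega⟩ with hi₁
  have h01 : i₀ ≠ i₁ := by
    intro hh
    have := congrArg Fin.val hh
    simp [hi₀, hi₁] at this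
  have hpair : P.H (fun ω => ((x ω, y ω), (c ω i₀, c ω i₁))) ≤ 9 * l / 4 + 5 / 2 * e := by
    have h1 := (upp G n F l e Ω P x y (fun ω => c ω i₀) (fun ω => c ω i₁) hM.base (by
      intro ω hω
      have r0 := hM.rel ω hω i₀
      have r1 := hM.rel ω hω i₁
      exact ⟨r0.2.2.1, r1.2.2.1, r0.2.2.2.1, r1.2.2.2.1, r0.2.2.2.2.2.2.1,
        r1.2.2.2.2.2.2.1⟩)).1
    have h2 : P.H (fun ω => (x ω, (c ω i₀, c ω i₁))) ≤ 2 * l + 2 * e := by
      rw [H_pair, H_pair]
      have a1 := C_le_H (P := P) L x (fun ω => (c ω i₀, c ω i₁))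
      have a2 := C_le_H (P := P) L (fun ω => c ω i₀) (fun ω => c ω i₁)
      have a3 := H_le_card (P := P) L x
      have a4 := H_le_card (P := P) L (fun ω => c ω i₀)
      have a5 := H_le_card (P := P) L (fun ω => c ω i₁)
      rw [hM.base.hN] at a3
      rw [Fintype.card_fin] at a4 a5
      have a6 := hM.base.hn
      linarith
    linarith
  -- `H (h | x, y, c0, c1)`
  have hh2 : ∀ i j, i ≠ j → P.H (fun ω => ((x ω, y ω), (c ω i, c ω j))) ≤ 9 * l / 4 + 5 / 2 * e →
      l / 2 - 7 / 2 * e ≤ P.C h (fun ω => ((x ω, y ω), (c ω i, c ω j))) := by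
    intro i j hij hp
    have h1 := hM.h2 i j hij
    have h2 : P.H (fun ω => (h ω, ((x ω, y ω), (c ω i, c ω j)))) = V + 2 * κ := by
      rw [← h1]
      exact H_fun L (fun s => ((s.2.1.1, s.2.1.2, s.1), s.2.2))
        (fun s => (s.1.2.2, ((s.1.1, s.1.2.1), s.2))) (fun _ => rfl) (fun _ => rfl)
    unfold Law.C
    rw [h2]
    have := hM.big
    linarith
  have hh := hh2 i₀ i₁ h01 hpair
  -- the same bound for all pairs
  have hpair' : ∀ i j, i ≠ j →
      P.H (fun ω => ((x ω, y ω), (c ω i, c ω j))) ≤ 9 * l / 4 + 5 / 2 * e := by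
    intro i j _
    have h1 := (upp G n F l e Ω P x y (fun ω => c ω i) (fun ω => c ω j) hM.base (by
      intro ω hω
      have r0 := hM.rel ω hω i
      have r1 := hM.rel ω hω j
      exact ⟨r0.2.2.1, r1.2.2.1, r0.2.2.2.1, r1.2.2.2.1, r0.2.2.2.2.2.2.1,
        r1.2.2.2.2.2.2.1⟩)).1
    have h2 : P.H (fun ω => (x ω, (c ω i, c ω j))) ≤ 2 * l + 2 * e := by
      rw [H_pair, H_pair]
      have a1 := C_le_H (P := P) L x (fun ω => (c ω i, c ω j))
      have a2 := C_le_H (P := P) L (fun ω => c ω i) (fun ω => c ω j)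
      have a3 := H_le_card (P := P) L x
      have a4 := H_le_card (P := P) L (fun ω => c ω i)
      have a5 := H_le_card (P := P) L (fun ω => c ω j)
      rw [hM.base.hN] at a3
      rw [Fintype.card_fin] at a4 a5
      have a6 := hM.base.hn
      linarith
    linarith
  -- `H (x, y)`
  have hV' : P.H (fun ω => (h ω, (x ω, y ω))) = V := by
    rw [← hM.hV]
    exact H_fun L (fun s => (s.2.1, s.2.2, s.1)) (fun s => (s.2.2, (s.1, s.2.1))) (fun _ => rfl)
      (fun _ => rfl)
  have hxy : P.H (fun ω => (x ω, y ω)) ≤ V - l / 2 + 7 / 2 * e := by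
    have h1 : P.C h (fun ω => (x ω, y ω)) = V - P.H (fun ω => (x ω, y ω)) := by
      unfold Law.C
      rw [hV']
    have h2 : P.C h (fun ω => ((x ω, y ω), (c ω i₀, c ω i₁))) ≤ P.C h (fun ω => (x ω, y ω)) :=
      C_le_of_det L (fun ω ω' _ _ e => by
        rw [Prod.mk.injEq] at e
        exact e.1)
    linarith
  -- `H (c i | x, y)`
  have hci : ∀ i, P.C (fun ω => c ω i) (fun ω => (x ω, y ω)) ≤ κ + 9 / 2 * e := by
    intro i
    obtain ⟨j, hij⟩ : ∃ j, i ≠ j := by
      by_cases h0 : i = i₀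
      · exact ⟨i₁, by rw [h0]; exact h01⟩
      · exact ⟨i₀, h0⟩
    have h1 : P.C (fun ω => (h ω, c ω i)) (fun ω => (x ω, y ω)) =
        P.C h (fun ω => (c ω i, (x ω, y ω))) + P.C (fun ω => c ω i) (fun ω => (x ω, y ω)) :=
      chain L _ _ _
    have h2 : P.C (fun ω => (h ω, c ω i)) (fun ω => (x ω, y ω)) =
        V + κ - P.H (fun ω => (x ω, y ω)) := by
      unfold Law.C
      rw [← hM.h1 i]
      congr 1
      exact H_fun L (fun s => ((s.2.1, s.2.2, s.1.1), s.1.2))
        (fun s => ((s.1.2.2, s.2), (s.1.1, s.1.2.1))) (fun _ => rfl) (fun _ => rfl)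
    have h3 : l / 2 - 7 / 2 * e ≤ P.C h (fun ω => (c ω i, (x ω, y ω))) := by
      refine (hh2 i j hij (hpair' i j hij)).trans (C_le_of_det L ?_)
      intro ω ω' _ _ e
      simp only [Prod.mk.injEq] at e ⊢
      exact ⟨e.2.1, e.1.1, e.1.2⟩
    have h4 : V - P.H (fun ω => (x ω, y ω)) ≤ l / 2 + e := by
      have h5 : P.C h (fun ω => (x ω, y ω)) = V - P.H (fun ω => (x ω, y ω)) := by
        unfold Law.C
        rw [hV']
      have h6 := C_le_H (P := P) L h (fun ω => (x ω, y ω))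
      have h7 := H_le_card (P := P) L h
      rw [Fintype.card_fin] at h7
      have h8 := hM.base.hn
      linarith
    linarith
  -- conclusion
  have hc : P.C c (fun ω => (x ω, y ω)) ≤ R * (κ + 9 / 2 * e) := by
    refine (C_pi_le L _ R c).trans ?_
    refine (Finset.sum_le_sum fun i _ => hci i).trans ?_
    rw [Finset.sum_const, Finset.card_univ, Fintype.card_fin, nsmul_eq_mul]
  have hcxy : P.H (fun ω => ((x ω, y ω), c ω)) = P.C c (fun ω => (x ω, y ω)) +
      P.H (fun ω => (x ω, y ω)) := by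
    rw [← H_pair]
    exact H_fun L Prod.swap Prod.swap (fun _ => rfl) (fun _ => rfl)
  have hfin : P.H (fun ω => (h ω, ((x ω, y ω), c ω))) = V + R * κ := by
    rw [← hM.hR]
    exact H_fun L (fun s => ((s.2.1.1, s.2.1.2, s.1), s.2.2))
      (fun s => (s.1.2.2, ((s.1.1, s.1.2.1), s.2))) (fun _ => rfl) (fun _ => rfl)
  unfold Law.C
  rw [hfin, hcxy]
  have hR' : (2 : ℝ) ≤ R := by exact_mod_cast hR
  have hRe : (0 : ℝ) ≤ R * e := by positivity
  nlinarith

end Pool.Agent.TF.H97
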