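import Pool.Agent.Helper97_TF.Basic

/-! Squad TF, row MEM. -/

set_option autoImplicit false

namespace Pool.Agent.TF.H97

open Pool.Agent.TF

/-- the main step, for a chosen member variable `K` -/
theorem mem_aux (L : Lib) {G : Type} [AddCommGroup G] [Fintype G] [DecidableEq G] {n : ℕ}
    (F : Fam G n) (l e : ℝ) {Ω : Type} [Fintype Ω] (P : Law Ω) (x y : Ω → G) (h K : Ω → Fin n)
    (hb : Base F l e) (hrel : ∀ ω, P.p ω ≠ 0 → F.Rel (x ω) (y ω) (h ω) (K ω))
    (hbig : 11 * l / 4 - e ≤ P.H (fun ω => (x ω, y ω, h ω)) +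
      2 * P.C K (fun ω => (x ω, y ω, h ω))) (R : ℕ) :
    ∃ (Ω' : Type) (_ : Fintype Ω') (P' : Law Ω') (x' y' : Ω' → G) (h' : Ω' → Fin n)
      (c' : Ω' → Fin R → Fin n), Mem F l e (P.H (fun ω => (x ω, y ω, h ω)))
        (P.C K (fun ω => (x ω, y ω, h ω))) R P' x' y' h' c' ∧
      P'.C h' (fun ω => (x' ω, y' ω, F.a (h' ω) (y' ω) - F.b (h' ω) (x' ω))) =
        P.C h (fun ω => (x ω, y ω, F.a (h ω) (y ω) - F.b (h ω) (x ω))) := by
  obtain ⟨Ω', hΩ', P', π, κf, h1, h2, h3, h4⟩ := L.ext Ω (Fin n) (G × G × Fin n) P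
    (fun ω => (x ω, y ω, h ω)) K R
  obtain ⟨s1, s2, s3, s4, s5⟩ := L.sam
  set Y : Ω → G × G × Fin n := fun ω => (x ω, y ω, h ω) with hY
  set V := P.H Y with hV
  set κ := P.C K Y with hκ
  -- entropies of `Y ∘ π`
  have hYV : P'.H (fun ω => Y (π ω)) = V :=
    s2 Ω' Ω _ P' P _ _ (s1 Ω' Ω _ _ P' P π (fun ω => ω) Y h1)
  have hone : ∀ i, P'.C (fun ω => κf ω i) (fun ω => Y (π ω)) = κ := by
    intro i
    exact s3 Ω' Ω _ _ _ P' P (fun ω => (Y (π ω), κf ω i)) (fun ω => (Y ω, K ω)) Prod.snd Prod.fst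
      (h3 i)
  have hle : ∀ {W : Type} (Z : Ω' → W) (i : Fin R), P'.C (fun ω => κf ω i)
      (fun ω => (Z ω, Y (π ω))) ≤ κ := by
    intro W Z i
    rw [← hone i]
    exact C_sub L _ _ _
  -- the whole tuple
  have hall : P'.C κf (fun ω => Y (π ω)) = R * κ := by
    apply le_antisymm
    · refine (C_pi_le L _ R κf).trans ?_
      rw [Finset.sum_congr rfl (fun i _ => hone i), Finset.sum_const, Finset.card_univ,
        Fintype.card_fin, nsmul_eq_mul]
    · have h5 : P'.C κf π = R * κ := by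
        have h6 : P'.H π = P.H (fun ω => ω) := s2 Ω' Ω _ P' P _ _ h1
        have h7 : P'.H (fun ω => (κf ω, π ω)) = P'.H (fun ω => (π ω, κf ω)) :=
          H_fun L Prod.swap Prod.swap (fun _ => rfl) (fun _ => rfl)
        unfold Law.C
        rw [h7, h4, h6]
        ring
      rw [← h5]
      exact C_le_of_det L (fun ω ω' _ _ e => by rw [e])
  have htwo : ∀ i j, i ≠ j → P'.C (fun ω => (κf ω i, κf ω j)) (fun ω => Y (π ω)) = 2 * κ := by
    intro i j hij
    apply le_antisymm
    · rw [chain L]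
      have a1 := hle (fun ω => κf ω j) i
      have a2 := hone j
      linarith
    · -- the other coordinates
      have hR2 : 2 ≤ R := by
        have := i.2
        have := j.2
        have h5 : (i : ℕ) ≠ j := fun h => hij (Fin.ext h)
        omega
      have key : ∀ s : Finset (Fin R), P'.C (fun ω => (fun k : s => κf ω k))
          (fun ω => ((κf ω i, κf ω j), Y (π ω))) ≤ s.card * κ := by
        intro s
        have h5 : P'.C (fun ω => (fun k : s => κf ω k)) (fun ω => ((κf ω i, κf ω j), Y (π ω))) ≤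
            P'.C (fun ω => (fun k : Fin s.card => κf ω (s.equivFin.symm k)))
              (fun ω => ((κf ω i, κf ω j), Y (π ω))) := by
          apply C_mono L
          intro ω ω' _ _ e
          rw [Prod.mk.injEq] at e
          funext k
          have := congrFun e.1 (s.equivFin k)
          simpa using this
        refine h5.trans ((C_pi_le L _ _ _).trans ?_)
        refine (Finset.sum_le_sum fun k _ => hle (fun ω => (κf ω i, κf ω j)) _).trans ?_
        rw [Finset.sum_const, Finset.card_univ, Fintype.card_fin, nsmul_eq_mul]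
      set s : Finset (Fin R) := (Finset.univ.erase i).erase j with hs
      have hcard : s.card + 2 = R := by
        rw [hs, Finset.card_erase_of_mem (Finset.mem_erase.2 ⟨Ne.symm hij, Finset.mem_univ _⟩),
          Finset.card_erase_of_mem (Finset.mem_univ _), Finset.card_univ, Fintype.card_fin]
        omega
      have h5 : P'.C κf (fun ω => Y (π ω)) ≤
          P'.C (fun ω => ((fun k : s => κf ω k), (κf ω i, κf ω j))) (fun ω => Y (π ω)) := by
        apply C_mono L
        intro ω ω' _ _ e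
        simp only [Prod.mk.injEq] at e
        funext k
        by_cases hki : k = i
        · rw [hki]; exact e.1.2.1
        · by_cases hkj : k = j
          · rw [hkj]; exact e.1.2.2
          · have hks : k ∈ s := by
              rw [hs, Finset.mem_erase, Finset.mem_erase]
              exact ⟨hkj, hki, Finset.mem_univ _⟩
            exact congrFun e.1.1 ⟨k, hks⟩
      rw [chain L, hall] at h5
      have h6 := key s
      have h7 : (s.card : ℝ) + 2 = R := by exact_mod_cast hcard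
      rw [← h7, add_mul] at h5
      linarith
  refine ⟨Ω', hΩ', P', fun ω => x (π ω), fun ω => y (π ω), fun ω => h (π ω), κf,
    ⟨hb, ?_, hYV, ?_, ?_, ?_, hbig⟩, ?_⟩
  · intro ω hω i
    obtain ⟨ω₀, hω₀, e⟩ := s5 Ω' Ω _ P' P (fun ω => (Y (π ω), κf ω i)) (fun ω => (Y ω, K ω))
      (h3 i) ω hω
    have h5 := hrel ω₀ hω₀
    simp only [hY, Prod.mk.injEq] at e
    rw [e.1.1, e.1.2.1, e.1.2.2, e.2] at h5
    exact h5
  · intro i
    have h5 := H_pair (P := P') (fun ω => κf ω i) (fun ω => Y (π ω))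
    rw [hone i, hYV] at h5
    rw [add_comm V, ← h5]
    exact H_fun L Prod.swap Prod.swap (fun _ => rfl) (fun _ => rfl)
  · intro i j hij
    have h5 := H_pair (P := P') (fun ω => (κf ω i, κf ω j)) (fun ω => Y (π ω))
    rw [htwo i j hij, hYV] at h5
    rw [add_comm V, ← h5]
    exact H_fun L Prod.swap Prod.swap (fun _ => rfl) (fun _ => rfl)
  · have h5 := H_pair (P := P') κf (fun ω => Y (π ω))
    rw [hall, hYV] at h5
    rw [add_comm V, ← h5]
    exact H_fun L Prod.swap Prod.swap (fun _ => rfl) (fun _ => rfl)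
  · exact s3 Ω' Ω _ _ _ P' P (fun ω => Y (π ω)) Y (fun s => s.2.2)
      (fun s => (s.1, s.2.1, F.a s.2.2 s.2.1 - F.b s.2.2 s.1))
      (s1 Ω' Ω _ _ P' P π (fun ω => ω) Y h1)

/-- MEM -/
theorem mem (L : Lib) : MemStmt := by
  intro G _ _ _ n F l e Ω _ P x y h k1 k2 hb hrel hbig
  set Y : Ω → G × G × Fin n := fun ω => (x ω, y ω, h ω) with hY
  have h1 : P.H (fun ω => (Y ω, (k1 ω, k2 ω))) ≤ P.H Y + P.C k1 Y + P.C k2 Y := by
    have h2 : P.H (fun ω => (Y ω, (k1 ω, k2 ω))) = P.H (fun ω => ((k1 ω, k2 ω), Y ω)) :=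
      H_fun L Prod.swap Prod.swap (fun _ => rfl) (fun _ => rfl)
    rw [h2, H_pair, chain L]
    have := C_sub (P := P) L k1 k2 Y
    linarith
  have h2 : 11 * l / 4 - e ≤ P.H (fun ω => (Y ω, (k1 ω, k2 ω))) := hbig
  rcases le_total (P.C k1 Y) (P.C k2 Y) with h3 | h3
  · refine ⟨P.H Y, P.C k2 Y, l / 2 - P.C h (fun ω => (x ω, y ω, F.a (h ω) (y ω) - F.b (h ω) (x ω))),
      fun R => ?_⟩
    obtain ⟨Ω', i1, P', x', y', h', c', hM, hC⟩ := mem_aux L F l e P x y h k2 hb
      (fun ω hω => (hrel ω hω).2) (by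
        change _ ≤ P.H Y + 2 * P.C k2 Y
        linarith) R
    refine ⟨Ω', i1, P', x', y', h', c', hM, ?_⟩
    rw [hC]
    ring
  · refine ⟨P.H Y, P.C k1 Y, l / 2 - P.C h (fun ω => (x ω, y ω, F.a (h ω) (y ω) - F.b (h ω) (x ω))),
      fun R => ?_⟩
    obtain ⟨Ω', i1, P', x', y', h', c', hM, hC⟩ := mem_aux L F l e P x y h k1 hb
      (fun ω hω => (hrel ω hω).1) (by
        change _ ≤ P.H Y + 2 * P.C k1 Y
        linarith) R
    refine ⟨Ω', i1, P', x', y', h', c', hM, ?_⟩
    rw [hC]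
    ring

end Pool.Agent.TF.H97
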