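import Pool.Agent.Helper97_TF.Basic

/-! Squad TF, row PLA. -/

set_option autoImplicit false

namespace Pool.Agent.TF.H97

open Pool.Agent.TF

section pla

variable {G : Type} [AddCommGroup G] [Fintype G] [DecidableEq G] {n : ℕ} {F : Fam G n}
  {l e f : ℝ} {R : ℕ} {Ω : Type} [Fintype Ω] {P : Law Ω} {x : Ω → G} {c : Ω → Fin R → Fin n}

/-- assignment of `a` to the elements of a finset -/
def asg {R : ℕ} (s : Finset (Fin R)) : Fin R → Option Bool :=
  fun i => if i ∈ s then some true else none

theorem asg_ext {R : ℕ} (s : Finset (Fin R)) (ε : Fin R → Bool) :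
    (∀ i σ, asg s i = some σ → ε i = σ) ↔ ∀ i ∈ s, ε i = true := by
  constructor
  · intro h i hi
    apply h i true
    unfold asg
    rw [if_pos hi]
  · intro h i σ hi
    unfold asg at hi
    by_cases his : i ∈ s
    · rw [if_pos his] at hi
      have := Option.some.inj hi
      rw [h i his, this]
    · rw [if_neg his] at hi
      exact absurd hi (by simp)

/-- conditional entropy with respect to the labels of a partial assignment -/
theorem C_asg_le (L : Lib) {S : Type} (X : Ω → S) (s : Finset (Fin R)) {T : Type} (Y : Ω → T)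
    (h : P.Det (fun ω => (F.labs (asg s) (c ω) (x ω), c ω)) Y) :
    P.C X (fun ω => (F.labs (asg s) (c ω) (x ω), c ω)) ≤ P.C X Y :=
  C_le_of_det L h

theorem labs_mem {s : Finset (Fin R)} {i : Fin R} (hi : i ∈ s) {x x' : G} {c c' : Fin R → Fin n}
    (h : F.labs (asg s) c x = F.labs (asg s) c' x') : F.a (c i) x = F.a (c' i) x' := by
  have h1 := congrFun h i
  unfold Fam.labs asg Fam.lab at h1
  rw [if_pos hi] at h1
  simpa using h1

theorem labs_eq {s : Finset (Fin R)} {x x' : G} {c c' : Fin R → Fin n}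
    (h : ∀ i ∈ s, F.a (c i) x = F.a (c' i) x') :
    F.labs (asg s) c x = F.labs (asg s) c' x' := by
  funext i
  unfold Fam.labs asg Fam.lab
  by_cases hi : i ∈ s
  · rw [if_pos hi]
    simpa using h i hi
  · rw [if_neg hi]
    rfl

/-- PLA -/
theorem pla (L : Lib) (mul : MulStmt) (boo : BooStmt) (pln : PlnStmt) (pr2 : Pr2Stmt) :
    PlaStmt := by
  intro G _ _ _ n F l e f R Ω _ P x c hR hT
  have he := hT.base.e0
  have hf := hT.f0
  set η : ℝ := 4000 * R * (f + e) with hη
  have hR' : (1 : ℝ) ≤ R := by exact_mod_cast hR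
  have hη0 : 0 ≤ η := by positivity
  have hboo := boo G n F η R Ω P x c hη0 hT.supp (fun τ j hj => mul G n F l e f R Ω P x c hT τ j hj)
  set E : (Fin R → Option Bool) → ℝ := fun τ => P.C x (fun ω => (F.labs τ (c ω) (x ω), c ω)) with hE
  set μ : (Fin R → Bool) → ℝ := fun ε => E (fun i => some (ε i)) with hμ
  have hμ0 : ∀ ε, 0 ≤ μ ε := fun ε => C_nonneg L _ _
  -- sums over the assignments
  have hsum : ∀ s : Finset (Fin R), (∑ ε : Fin R → Bool, if (∀ i ∈ s, ε i = true) then μ ε else 0)
      ≤ E (asg s) ∧ E (asg s) ≤ (∑ ε : Fin R → Bool, if (∀ i ∈ s, ε i = true) then μ ε else 0) +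
        2 ^ R * η := by
    intro s
    have h1 := hboo (asg s)
    have h2 : (∑ ε : Fin R → Bool, if (∀ i σ, asg s i = some σ → ε i = σ) then
        P.C x (fun ω => (F.labs (fun i => some (ε i)) (c ω) (x ω), c ω)) else 0) =
        ∑ ε : Fin R → Bool, if (∀ i ∈ s, ε i = true) then μ ε else 0 := by
      apply Finset.sum_congr rfl
      intro ε _
      by_cases h3 : ∀ i ∈ s, ε i = true
      · rw [if_pos h3, if_pos ((asg_ext s ε).2 h3)]
      · rw [if_neg h3, if_neg (fun h => h3 ((asg_ext s ε).1 h))]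
    rw [h2] at h1
    exact h1
  -- `x` and its labels
  have hx : ∀ ω, P.p ω ≠ 0 → ∀ i, F.a (c ω i) (x ω) - F.b (c ω i) (x ω) = x ω := fun ω hω i =>
    F.sub _ _ (hT.supp ω hω i)
  have hlow : ∀ i, l / 2 - f ≤ E (asg {i}) := by
    intro i
    refine (hT.move i).trans ?_
    have h1 : P.C (fun ω => F.b (c ω i) (x ω)) (fun ω => (F.a (c ω i) (x ω), c ω)) ≤
        P.C x (fun ω => (F.a (c ω i) (x ω), c ω)) := by
      apply C_mono L
      intro ω ω' _ _ h
      simp only [Prod.mk.injEq] at h
      change F.b (c ω i) (x ω) = F.b (c ω' i) (x ω')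
      rw [h.1, h.2.2]
    refine h1.trans (C_le_of_det L ?_)
    intro ω ω' hω hω' h
    simp only [Prod.mk.injEq] at h ⊢
    refine ⟨labs_eq fun k hk => ?_, h.2⟩
    rw [Finset.mem_singleton.1 hk]
    exact h.1
  have hup : ∀ i, E (asg {i}) ≤ l / 2 + e := by
    intro i
    have h1 : E (asg {i}) ≤ P.C x (fun ω => (F.a (c ω i) (x ω), c ω)) := by
      apply C_asg_le L
      intro ω ω' hω hω' h
      simp only [Prod.mk.injEq] at h ⊢
      exact ⟨labs_mem (Finset.mem_singleton_self i) h.1, h.2⟩
    have h2 : P.C x (fun ω => (F.a (c ω i) (x ω), c ω)) ≤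
        P.C (fun ω => F.b (c ω i) (x ω)) (fun ω => (F.a (c ω i) (x ω), c ω)) := by
      apply C_mono L
      intro ω ω' hω hω' h
      simp only [Prod.mk.injEq] at h
      have h3 := hx ω hω i
      have h4 := hx ω' hω' i
      rw [← h3, ← h4, h.1, h.2.1]
    have h3 : P.C (fun ω => F.b (c ω i) (x ω)) (fun ω => (F.a (c ω i) (x ω), c ω)) ≤
        P.C (fun ω => F.b (c ω i) (x ω)) (fun ω => c ω i) := by
      apply C_le_of_det L
      intro ω ω' hω hω' h
      simp only [Prod.mk.injEq] at h
      change c ω i = c ω' i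
      rw [h.2]
    have h4 : P.C (fun ω => F.b (c ω i) (x ω)) (fun ω => c ω i) ≤ l / 2 + e := by
      apply C_le_card L _ _ (fun k => (F.D k).image (F.lab false k))
      · intro ω hω
        rw [Finset.mem_image]
        exact ⟨x ω, hT.supp ω hω i, by simp [Fam.lab]⟩
      · intro k
        exact hT.base.hlab false k
    linarith
  have hpair : ∀ i j, i ≠ j → E (asg {i, j}) ≤ l / 4 + 20 * e := by
    intro i j hij
    have h1 := (pr2 G n F l e Ω P x (fun ω => c ω i) (fun ω => c ω j) hT.base
      (fun ω hω => ⟨hT.supp ω hω i, hT.supp ω hω j⟩) (hT.pair i j hij)).line true true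
    refine le_trans ?_ h1
    apply C_asg_le L
    intro ω ω' hω hω' h
    simp only [Prod.mk.injEq] at h ⊢
    have hi : i ∈ ({i, j} : Finset (Fin R)) := Finset.mem_insert_self i _
    have hj : j ∈ ({i, j} : Finset (Fin R)) :=
      Finset.mem_insert_of_mem (Finset.mem_singleton_self j)
    refine ⟨⟨?_, ?_⟩, by rw [h.2], by rw [h.2]⟩
    · have := labs_mem hi h.1
      simpa [Fam.lab] using this
    · have := labs_mem hj h.1
      simpa [Fam.lab] using this
  -- Plotkin
  have hpl := pln R μ (l / 2 - f) (l / 2 + e) (l / 4 + 20 * e) (2 ^ R * η) hR hμ0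
    (by
      intro i
      have h1 := hsum {i}
      have h2 : (∑ ε : Fin R → Bool, if (∀ k ∈ ({i} : Finset (Fin R)), ε k = true) then μ ε else 0)
          = ∑ ε, if ε i = true then μ ε else 0 := by
        apply Finset.sum_congr rfl
        intro ε _
        simp only [Finset.mem_singleton, forall_eq]
      rw [h2] at h1
      have h3 := hlow i
      linarith [h1.2])
    (by
      intro i
      have h1 := hsum {i}
      have h2 : (∑ ε : Fin R → Bool, if (∀ k ∈ ({i} : Finset (Fin R)), ε k = true) then μ ε else 0)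
          = ∑ ε, if ε i = true then μ ε else 0 := by
        apply Finset.sum_congr rfl
        intro ε _
        simp only [Finset.mem_singleton, forall_eq]
      rw [h2] at h1
      exact h1.1.trans (hup i))
    (by
      intro i j hij
      have h1 := hsum {i, j}
      have h2 : (∑ ε : Fin R → Bool, if (∀ k ∈ ({i, j} : Finset (Fin R)), ε k = true) then μ ε else 0)
          = ∑ ε, if ε i = true ∧ ε j = true then μ ε else 0 := by
        apply Finset.sum_congr rfl
        intro ε _
        simp only [Finset.mem_insert, Finset.mem_singleton, forall_eq_or_imp, forall_eq]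
      rw [h2] at h1
      exact h1.1.trans (hpair i j hij))
  -- the entropy of the `b`
  set b : Ω → Fin R → G := fun ω i => F.b (c ω i) (x ω) with hb
  have hbT : P.C b c = P.C x c - P.C x (fun ω => (b ω, c ω)) := by
    have h1 := chain (P := P) L x b c
    have h2 : P.C (fun ω => (x ω, b ω)) c = P.C x c := by
      apply le_antisymm
      · apply C_mono L
        intro ω ω' _ _ h
        simp only [Prod.mk.injEq] at h ⊢
        refine ⟨h.1, ?_⟩
        simp only [hb]
        rw [h.1, h.2]
      · apply C_mono L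
        intro ω ω' _ _ h
        simp only [Prod.mk.injEq] at h
        exact h.1.1
    linarith
  have hμb : P.C x (fun ω => (b ω, c ω)) = μ (fun _ => false) := by
    have h1 : ∀ ω ω', P.p ω ≠ 0 → P.p ω' ≠ 0 → c ω = c ω' → (b ω = b ω' ↔
        F.labs (fun _ => some false) (c ω) (x ω) = F.labs (fun _ => some false) (c ω') (x ω')) := by
      intro ω ω' _ _ _
      constructor
      · intro h
        funext i
        have := congrFun h i
        simp only [hb] at this
        simp only [Fam.labs, Fam.lab, Option.map_some]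
        simpa using this
      · intro h
        funext i
        have := congrFun h i
        simp only [Fam.labs, Fam.lab, Option.map_some] at this
        simpa using this
    apply le_antisymm
    · apply C_le_of_det L
      intro ω ω' hω hω' h
      simp only [Prod.mk.injEq] at h ⊢
      exact ⟨(h1 ω ω' hω hω' h.2).1 h.1, h.2⟩
    · apply C_le_of_det L
      intro ω ω' hω hω' h
      simp only [Prod.mk.injEq] at h ⊢
      exact ⟨(h1 ω ω' hω hω' h.2).2 h.1, h.2⟩
  have hT' : (∑ ε, μ ε) ≤ P.C x c := by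
    have h1 := (hsum ∅).1
    have h2 : (∑ ε : Fin R → Bool, if (∀ k ∈ (∅ : Finset (Fin R)), ε k = true) then μ ε else 0)
        = ∑ ε, μ ε := by
      apply Finset.sum_congr rfl
      intro ε _
      simp
    rw [h2] at h1
    refine h1.trans (C_le_of_det L ?_)
    intro ω ω' _ _ h
    simp only [Prod.mk.injEq] at h
    exact h.2
  have hsplit : (∑ ε, if ε = (fun _ => false) then 0 else μ ε) = (∑ ε, μ ε) - μ (fun _ => false) := by
    have h1 : ∀ ε : Fin R → Bool, (if ε = (fun _ => false) then 0 else μ ε) =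
        μ ε - if ε = (fun _ => false) then μ (fun _ => false) else 0 := by
      intro ε
      by_cases h : ε = (fun _ => false)
      · rw [if_pos h, if_pos h, h, sub_self]
      · rw [if_neg h, if_neg h, sub_zero]
    rw [Finset.sum_congr rfl (fun ε _ => h1 ε), Finset.sum_sub_distrib, Finset.sum_ite_eq',
      if_pos (Finset.mem_univ _)]
  rw [hsplit] at hpl
  -- arithmetic
  have harith : l * R / (R + 1) - 2 ^ (R + 15) * R * (f + e) ≤
      4 * ((R + 1) * R * (l / 2 - f - 2 ^ R * η) - R * (l / 2 + e) - R * (R - 1) *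
        (l / 4 + 20 * e)) / ((R : ℝ) + 1) ^ 2 := by
    have hR1 : (0 : ℝ) < (R : ℝ) + 1 := by linarith
    have hpow : (1 : ℝ) ≤ 2 ^ R := one_le_pow₀ (by norm_num)
    rw [le_div_iff₀ (by positivity)]
    have e1 : (l * R / (R + 1) - 2 ^ (R + 15) * R * (f + e)) * ((R : ℝ) + 1) ^ 2 =
        l * R * (R + 1) - 2 ^ (R + 15) * R * (f + e) * ((R : ℝ) + 1) ^ 2 := by
      field_simp
    rw [e1, hη, pow_add]
    have e2 : 4 * ((R + 1) * R * (l / 2 - f - 2 ^ R * (4000 * R * (f + e))) - R * (l / 2 + e) -
        R * (R - 1) * (l / 4 + 20 * e)) = l * R * (R + 1) -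
        (4 * (R + 1) * R * (f + 2 ^ R * (4000 * R * (f + e))) + 4 * R * e +
          80 * R * (R - 1) * e) := by ring
    rw [e2]
    have hfe : 0 ≤ f + e := by linarith
    have h1 : 4 * (R + 1) * R * (f + 2 ^ R * (4000 * R * (f + e))) + 4 * R * e +
        80 * R * (R - 1) * e ≤ (84 + 16000 * R * 2 ^ R) * (f + e) * ((R : ℝ) + 1) ^ 2 := by
      have a1 : 4 * ((R : ℝ) + 1) * R * f ≤ 4 * (f + e) * ((R : ℝ) + 1) ^ 2 := by
        nlinarith [mul_nonneg hf (by positivity : (0 : ℝ) ≤ R), mul_nonneg he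
          (by positivity : (0 : ℝ) ≤ ((R : ℝ) + 1) ^ 2), mul_nonneg hf hR1.le]
      have a2 : 4 * ((R : ℝ) + 1) * R * (2 ^ R * (4000 * R * (f + e))) ≤
          16000 * R * 2 ^ R * (f + e) * ((R : ℝ) + 1) ^ 2 := by
        have : (0 : ℝ) ≤ 16000 * R * 2 ^ R * (f + e) * (R + 1) := by positivity
        nlinarith
      have a3 : 4 * (R : ℝ) * e + 80 * R * (R - 1) * e ≤ 80 * (f + e) * ((R : ℝ) + 1) ^ 2 := by
        have b1 : 4 * (R : ℝ) + 80 * R * (R - 1) ≤ 80 * ((R : ℝ) + 1) ^ 2 := by nlinarith
        have b2 := mul_le_mul_of_nonneg_right b1 he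
        have b3 : 0 ≤ 80 * f * ((R : ℝ) + 1) ^ 2 := by positivity
        nlinarith
      nlinarith
    have h2 : (84 + 16000 * R * 2 ^ R) * (f + e) * ((R : ℝ) + 1) ^ 2 ≤
        2 ^ R * 2 ^ 15 * R * (f + e) * ((R : ℝ) + 1) ^ 2 := by
      have a1 : (84 + 16000 * R * 2 ^ R : ℝ) ≤ 2 ^ R * 2 ^ 15 * R := by
        have : (1 : ℝ) ≤ R * 2 ^ R := by nlinarith
        norm_num
        nlinarith
      have a2 : 0 ≤ (f + e) * ((R : ℝ) + 1) ^ 2 := by positivity
      have := mul_le_mul_of_nonneg_right a1 a2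
      nlinarith
    linarith
  rw [hbT, hμb]
  linarith

end pla

end Pool.Agent.TF.H97
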