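import Pool.Agent.TF.Stmts

/-! Squad TF: consequences of the entropy library. -/

set_option autoImplicit false

namespace Pool.Agent.TF.H97

open Pool.Agent.TF

section basic

variable {Ω : Type} [Fintype Ω] {P : Law Ω} {S T U W : Type}

theorem H_le (L : Lib) {X : Ω → S} {Y : Ω → T} (h : P.Det X Y) : P.H Y ≤ P.H X :=
  L.mon.1 Ω S T P X Y h

theorem H_nonneg (L : Lib) (X : Ω → S) : 0 ≤ P.H X := L.mon.2 Ω S P X

theorem H_eq (L : Lib) {X : Ω → S} {Y : Ω → T} (h : P.Det X Y) (h' : P.Det Y X) : P.H X = P.H Y :=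
  le_antisymm (H_le L h') (H_le L h)

/-- equality of entropies by functions -/
theorem H_fun (L : Lib) {X : Ω → S} {Y : Ω → T} (f : S → T) (g : T → S) (h : ∀ ω, f (X ω) = Y ω)
    (h' : ∀ ω, g (Y ω) = X ω) : P.H X = P.H Y :=
  H_eq L (fun ω ω' _ _ e => by rw [← h, ← h, e]) (fun ω ω' _ _ e => by rw [← h', ← h', e])

/-- a function of a variable has smaller entropy -/
theorem H_comp_le (L : Lib) {X : Ω → S} {Y : Ω → T} (f : S → T) (h : ∀ ω, f (X ω) = Y ω) :
    P.H Y ≤ P.H X :=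
  H_le L (fun ω ω' _ _ e => by rw [← h, ← h, e])

theorem C_nonneg (L : Lib) (X : Ω → S) (Y : Ω → T) : 0 ≤ P.C X Y := by
  unfold Law.C
  have := H_comp_le (P := P) L (X := fun ω => (X ω, Y ω)) (Y := Y) Prod.snd (fun _ => rfl)
  linarith

theorem H_const (L : Lib) (a : S) : P.H (fun _ : Ω => a) = 0 := by
  apply le_antisymm _ (H_nonneg L _)
  unfold Law.H
  have h1 : ∀ ω : Ω, P.q (fun _ : Ω => a) a = 1 := by
    intro ω
    unfold Law.q
    simp only [if_true]
    exact P.one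
  simp only [neg_nonpos]
  apply Finset.sum_nonneg
  intro ω _
  rw [h1 ω, Real.log_one, mul_zero]

/-- conditioning on more decreases the entropy, form with determination -/
theorem C_le_of_det (L : Lib) {X : Ω → S} {Y : Ω → T} {Z : Ω → U} (h : P.Det Y Z) :
    P.C X Y ≤ P.C X Z := by
  have h1 := L.sub Ω S T U P X Y Z
  unfold Law.C at h1 ⊢
  have e1 : P.H (fun ω => (X ω, (Y ω, Z ω))) = P.H (fun ω => (X ω, Y ω)) := by
    apply H_eq L
    · intro ω ω' _ _ e
      simp only [Prod.mk.injEq] at e ⊢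
      exact ⟨e.1, e.2.1⟩
    · intro ω ω' h1 h2 e
      simp only [Prod.mk.injEq] at e ⊢
      exact ⟨e.1, e.2, h ω ω' h1 h2 e.2⟩
  have e2 : P.H (fun ω => (Y ω, Z ω)) = P.H Y := by
    apply H_eq L
    · intro ω ω' _ _ e
      simp only [Prod.mk.injEq] at e
      exact e.1
    · intro ω ω' h1 h2 e
      simp only [Prod.mk.injEq]
      exact ⟨e, h ω ω' h1 h2 e⟩
  linarith

theorem C_le_H (L : Lib) (X : Ω → S) (Y : Ω → T) : P.C X Y ≤ P.H X := by
  have h1 := C_le_of_det (P := P) L (X := X) (Y := Y) (Z := fun _ => ())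
    (fun ω ω' _ _ _ => rfl)
  have h2 : P.C X (fun _ : Ω => ()) = P.H X := by
    unfold Law.C
    rw [H_const L, sub_zero]
    exact H_fun L Prod.fst (fun s => (s, ())) (fun _ => rfl) (fun _ => rfl)
  rwa [h2] at h1

/-- conditional determination: if `(X,Z)` determines `Y` then `C Y Z ≤ C X Z` -/
theorem C_mono (L : Lib) {X : Ω → S} {Y : Ω → T} {Z : Ω → U}
    (h : P.Det (fun ω => (X ω, Z ω)) Y) : P.C Y Z ≤ P.C X Z := by
  unfold Law.C
  have := H_le (P := P) L (X := fun ω => (X ω, Z ω)) (Y := fun ω => (Y ω, Z ω))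
    (fun ω ω' h1 h2 e => by
      have h3 := h ω ω' h1 h2 e
      simp only [Prod.mk.injEq] at e ⊢
      exact ⟨h3, e.2⟩)
  linarith

/-- chain rule -/
theorem chain (L : Lib) (X : Ω → S) (Y : Ω → T) (Z : Ω → U) :
    P.C (fun ω => (X ω, Y ω)) Z = P.C X (fun ω => (Y ω, Z ω)) + P.C Y Z := by
  unfold Law.C
  have : P.H (fun ω => ((X ω, Y ω), Z ω)) = P.H (fun ω => (X ω, (Y ω, Z ω))) :=
    H_fun L (fun s => (s.1.1, (s.1.2, s.2))) (fun s => ((s.1, s.2.1), s.2.2)) (fun _ => rfl)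
      (fun _ => rfl)
  rw [this]
  ring

theorem C_sub (L : Lib) (X : Ω → S) (Y : Ω → T) (Z : Ω → U) :
    P.C X (fun ω => (Y ω, Z ω)) ≤ P.C X Z := L.sub Ω S T U P X Y Z

theorem H_pair (X : Ω → S) (Y : Ω → T) : P.H (fun ω => (X ω, Y ω)) = P.C X Y + P.H Y := by
  unfold Law.C
  ring

/-- subadditivity for tuples -/
theorem C_pi_le (L : Lib) (Y : Ω → T) : ∀ (R : ℕ) (c : Ω → Fin R → S),
    P.C c Y ≤ ∑ i, P.C (fun ω => c ω i) Y := by
  intro R
  induction R with
  | zero =>
    intro c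
    rw [Fin.sum_univ_zero]
    unfold Law.C
    have := H_le (P := P) L (X := Y) (Y := fun ω => (c ω, Y ω)) (fun ω ω' _ _ e => by
      rw [Prod.mk.injEq]
      exact ⟨Subsingleton.elim _ _, e⟩)
    linarith
  | succ R ih =>
    intro c
    rw [Fin.sum_univ_castSucc]
    have h1 : P.C c Y ≤ P.C (fun ω => ((fun i : Fin R => c ω i.castSucc), c ω (Fin.last R))) Y := by
      apply C_mono L
      intro ω ω' _ _ e
      rw [Prod.mk.injEq, Prod.mk.injEq] at e
      funext i
      refine Fin.lastCases ?_ (fun j => ?_) i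
      · exact e.1.2
      · exact congrFun e.1.1 j
    rw [chain L] at h1
    have h2 := C_sub (P := P) L (fun ω => (fun i : Fin R => c ω i.castSucc))
      (fun ω => c ω (Fin.last R)) Y
    have h3 := ih (fun ω i => c ω i.castSucc)
    linarith

theorem E_const (a : ℝ) : P.E (fun _ => a) = a := by
  unfold Law.E
  rw [← Finset.sum_mul, P.one, one_mul]

/-- entropy of a variable with values in a finite type -/
theorem H_le_card (L : Lib) [Fintype S] (X : Ω → S) : P.H X ≤ Real.log (Fintype.card S) := by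
  have h1 := L.gib Ω S P X Finset.univ (fun _ => 1) (fun _ _ => zero_le_one)
    (fun ω _ => ⟨Finset.mem_univ _, one_pos⟩)
  simp only [Real.log_one] at h1
  rw [E_const, add_zero, Finset.sum_const, Finset.card_univ, nsmul_eq_mul, mul_one] at h1
  exact h1

theorem E_le {f : Ω → ℝ} {a : ℝ} (h : ∀ ω, P.p ω ≠ 0 → f ω ≤ a) : P.E f ≤ a := by
  rw [← E_const (P := P) a]
  unfold Law.E
  apply Finset.sum_le_sum
  intro ω _
  by_cases h0 : P.p ω = 0
  · rw [h0, zero_mul, zero_mul]
  · exact mul_le_mul_of_nonneg_left (h ω h0) (P.nn ω)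

/-- conditional entropy of a variable with values in a finite set depending on the condition -/
theorem C_le_card (L : Lib) (X : Ω → S) (Y : Ω → U) (A : U → Finset S) (a : ℝ)
    (h : ∀ ω, P.p ω ≠ 0 → X ω ∈ A (Y ω)) (ha : ∀ u, Real.log (A u).card ≤ a) : P.C X Y ≤ a := by
  have h1 := L.gic Ω S U P X Y A (fun _ _ => 1) (fun _ _ _ => zero_le_one)
    (fun ω hω => ⟨h ω hω, one_pos⟩)
  simp only [Real.log_one] at h1
  rw [E_const, add_zero] at h1
  refine h1.trans (E_le fun ω _ => ?_)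
  rw [Finset.sum_const, nsmul_eq_mul, mul_one]
  exact ha _

end basic

end Pool.Agent.TF.H97
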